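import Pool.Agent.H76.QE.Targets

/-! # Quadratic equations over `ZMod p`: selection of independent pairs of forms (helper76) -/

set_option autoImplicit false

namespace Pool.Agent.H76.QE

open Finset
open Pool.Agent.H1.LP (supp ip comb kk S_DISP S_COL S_SMALL)

theorem card_supp_add_zer {p N : ℕ} (v : Fin N → ZMod p) :
    (supp v).card + (zer v).card = N := by
  have h := Finset.card_filter_add_card_filter_not (s := (univ : Finset (Fin N)))
    (fun j => v j = 0)
  rw [Finset.card_univ, Fintype.card_fin] at h
  unfold supp zer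
  simp only [ne_eq]
  omega

theorem pf_DEL (hS : S_SMALL) : T_DEL := by
  classical
  intro p M₀ N k R t₀ t₁ z₀ hp T₀ A₀ hT hA hW hz ht hk hM
  obtain ⟨U, hU, hUc⟩ := hS p N M₀ t₀ 0 A₀ (by
    intro c h1 h2
    have h3 := hW c h1 (h2.trans ht)
    have h4 := card_supp_add_zer (comb A₀ c)
    omega)
  -- the injection
  have hcomp : R + R ≤ Uᶜ.card := by
    rw [Finset.card_compl, Fintype.card_fin]
    omega
  obtain ⟨e0⟩ : Nonempty (Fin (R + R) ↪ {x // x ∈ Uᶜ}) := by
    apply Function.Embedding.nonempty_of_card_le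
    rw [Fintype.card_fin, Fintype.card_coe]
    exact hcomp
  obtain ⟨e, he⟩ : ∃ e : Fin (R + R) → Fin M₀, e = fun i => (e0 i : Fin M₀) := ⟨_, rfl⟩
  have heinj : Function.Injective e := by
    intro i j hij
    rw [he] at hij
    exact e0.injective (Subtype.ext hij)
  have heU : ∀ i, e i ∉ U := by
    intro i
    have := (e0 i).2
    rw [Finset.mem_compl] at this
    rw [he]
    exact this
  -- extension of coefficient vectors
  have hext : ∀ C : Fin (R + R) → ZMod p, ∃ C' : Fin M₀ → ZMod p, (∀ i, C' (e i) = C i) ∧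
      (∀ j, (∀ i, e i ≠ j) → C' j = 0) := by
    intro C
    refine ⟨Function.extend e C 0, fun i => heinj.extend_apply _ _ _, fun j hj => ?_⟩
    rw [Function.extend_apply' _ _ _ (by rintro ⟨i, hi⟩; exact hj i hi)]
    rfl
  have hsupp : ∀ (C : Fin (R + R) → ZMod p) (C' : Fin M₀ → ZMod p), (∀ i, C' (e i) = C i) →
      (∀ j, (∀ i, e i ≠ j) → C' j = 0) → supp C' = (supp C).image e := by
    intro C C' h1 h2
    ext j
    simp only [supp, mem_filter, mem_univ, true_and, mem_image]
    constructor
    · intro hj
      by_contra hc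
      apply hj
      apply h2
      intro i hi
      apply hc
      refine ⟨i, ?_, hi⟩
      rw [← h1, hi]
      exact hj
    · rintro ⟨i, hi, rfl⟩
      rw [h1]
      exact hi
  have hcomb : ∀ (C : Fin (R + R) → ZMod p) (C' : Fin M₀ → ZMod p), (∀ i, C' (e i) = C i) →
      (∀ j, (∀ i, e i ≠ j) → C' j = 0) → comb A₀ C' = comb (fun i => A₀ (e i)) C := by
    intro C C' h1 h2
    funext l
    unfold comb
    symm
    calc ∑ i, C i * A₀ (e i) l = ∑ i, C' (e i) * A₀ (e i) l := by
          refine sum_congr rfl fun i _ => ?_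
          rw [h1]
      _ = ∑ j ∈ univ.image e, C' j * A₀ j l := by
          rw [sum_image (fun i _ j _ h => heinj h)]
      _ = ∑ j, C' j * A₀ j l := by
          apply sum_subset (subset_univ _)
          intro j _ hj
          rw [h2 j, zero_mul]
          intro i hi
          exact hj (mem_image.mpr ⟨i, mem_univ _, hi⟩)
  have hTex : ∀ i : Fin R, ∃ S : Finset (Fin N),
      T₀ (e (Fin.castAdd R i)) ∪ T₀ (e (Fin.natAdd R i)) ⊆ S ∧ S.card = 2 * k := by
    intro i
    have h1 : (T₀ (e (Fin.castAdd R i)) ∪ T₀ (e (Fin.natAdd R i))).card ≤ 2 * k := by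
      refine (card_union_le _ _).trans ?_
      rw [hT, hT]
      omega
    have h2 : 2 * k ≤ (univ : Finset (Fin N)).card := by
      rw [Finset.card_univ, Fintype.card_fin]
      exact hk
    obtain ⟨S, hS1, -, hS2⟩ := Finset.exists_subsuperset_card_eq
      (subset_univ (T₀ (e (Fin.castAdd R i)) ∪ T₀ (e (Fin.natAdd R i)))) h1 h2
    exact ⟨S, hS1, hS2⟩
  choose T hT1 hT2 using hTex
  refine ⟨T, fun i => A₀ (e i), hT2, ?_, ?_, ?_⟩
  · intro i
    exact ⟨(hA _).trans (subset_union_left.trans (hT1 i)),
      (hA _).trans (subset_union_right.trans (hT1 i))⟩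
  · intro C h1 h2
    obtain ⟨C', h3, h4⟩ := hext C
    have h5 : (supp C').card = (supp C).card := by
      rw [hsupp C C' h3 h4, card_image_of_injective _ heinj]
    have h6 := hW C' (by omega) (by omega)
    rwa [hcomb C C' h3 h4] at h6
  · intro C h1 h2
    obtain ⟨C', h3, h4⟩ := hext C
    have h5 : (supp C').card = (supp C).card := by
      rw [hsupp C C' h3 h4, card_image_of_injective _ heinj]
    have h6 : comb A₀ C' = 0 := by rw [hcomb C C' h3 h4, h2]
    have h7 : (supp C').card ≤ t₀ := by
      by_contra hc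
      push Not at hc
      have h8 := hW C' hc (by omega)
      rw [h6] at h8
      have h9 : (zer (0 : Fin N → ZMod p)).card = N := by
        have h10 : zer (0 : Fin N → ZMod p) = univ := by
          ext j
          simp [zer]
        rw [h10, Finset.card_univ, Fintype.card_fin]
      omega
    have h8 := hUc C' (by omega) h6
    rw [hsupp C C' h3 h4] at h8
    funext i
    by_contra hc
    have h9 : i ∈ supp C := by
      simp only [supp, mem_filter, mem_univ, true_and]
      exact hc
    exact heU i (h8 (mem_image_of_mem e h9))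

end Pool.Agent.H76.QE
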