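import Pool.Agent.H76.QE.Asm
import Pool.Agent.H76.QE.DEL
import Pool.Agent.H15.LP.DISP
import Pool.Agent.H29.LP.COL
import Pool.Agent.H29.LP.SMALL

/-!
# Quadratic equations over `ZMod p`: the density theorem (helper76)
-/

set_option autoImplicit false

namespace Pool.Agent.H76.QE

theorem syq : T_SYQ :=
  H25.QD.pf_SYQ (H64.QD.pf_CFQ H15.LP.disp H29.LP.col H64.QD.pf_CNT) (pf_DEL H29.LP.small)
    H25.QD.pf_FAQ (H83.QD.pf_STR H83.QD.pf_INE)

/-- The density theorem. -/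
theorem goo : T_GOO := H39.QD.pf_GOO H64.QD.pf_CNT dzp kfb pos syq

end Pool.Agent.H76.QE
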