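import Pool.Agent.H76.QE.Targets

/-!
# Quadratic equations over `ZMod p`: targets of the board `qd_modules`, the violated part (helper76,
after a remark of helper43)

For every equation `i` the function `D * [Bad i]` is at most `β` on squares of degree at most `h`.
-/

set_option autoImplicit false

namespace Pool.Agent.H76.QE

open Finset
open Pool.Agent.H1.LP (supp ip comb kk)
open H43.PS (PosDeg Low av)
open Pool.Agent.H73.OX (ch)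

open Classical in
/-- Fourier coefficient of the indicator of the violation of `y' - b1 = (y - b0) ^ 2` -/
noncomputable def PH {p : ℕ} [NeZero p] (b0 b1 s s' : ZMod p) : ℂ :=
  ((p : ℂ) ^ 2)⁻¹ * ∑ y : ZMod p, ∑ y' : ZMod p,
    if y' - b1 ≠ (y - b0) ^ 2 then ZMod.stdAddChar (-(s * y + s' * y')) else 0

/-- the kernel of `D0 * [Bad i]` -/
noncomputable def KX {p R : ℕ} [NeZero p] (b : Fin (R + R) → ZMod p) (i : Fin R) (τ : ℕ)
    (C : Fin (R + R) → ZMod p) : ℂ :=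
  ((p : ℂ) ^ R)⁻¹ * ∑ x : Fin R → ZMod p, ZMod.stdAddChar (-ip C (sh b x)) *
    ∑ s : ZMod p, ∑ s' : ZMod p,
      if (supp (C - Pi.single (Fin.castAdd R i) s - Pi.single (Fin.natAdd R i) s')).card ≤ τ then
        PH (b (Fin.castAdd R i)) (b (Fin.natAdd R i)) s s' *
          ZMod.stdAddChar (s * sh b x (Fin.castAdd R i) + s' * sh b x (Fin.natAdd R i))
      else 0

/-- LVE: `T_CPX → T_LVE`; the quadratic form of `D0 * [Bad i]` on characters -/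
def T_LVE : Prop := ∀ (p R N τ : ℕ) [Fact p.Prime] (A : Fin (R + R) → Fin N → ZMod p)
  (b : Fin (R + R) → ZMod p) (i : Fin R) (B : Finset (Fin N → ZMod p)),
  (∀ z, z ∈ B ↔ Bad A b i z) → ∀ (V : Finset (Fin N → ZMod p)) (a : (Fin N → ZMod p) → ℂ)
  (f : (Fin N → ZMod p) → ℝ), (∀ z, ((f z : ℝ) : ℂ) = ∑ l ∈ V, a l * ch l z) →
  ∑ z ∈ B, D0 A τ b z * f z ^ 2 =
    (p : ℝ) ^ N * (∑ x ∈ V, ∑ y ∈ V, a x * (starRingEnd ℂ) (a y) *
      ∑ C ∈ (CC p (R + R) (τ + 2)).filter (fun C => comb A C = y - x), KX b i τ C).re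

/-- LVB: `T_GSU → T_LVB`; the kernel is zero for small weights and small for large weights -/
def T_LVB : Prop := ∀ (p R τ : ℕ) [Fact p.Prime] (b : Fin (R + R) → ZMod p) (i : Fin R)
  (C : Fin (R + R) → ZMod p), 2 < p →
  ((supp C).card + 2 ≤ τ → KX b i τ C = 0) ∧
  ‖KX b i τ C‖ ^ 4 * (p : ℝ) ^ (supp C).card ≤ (p : ℝ) ^ 10

/-- LVQ: `T_PSV → T_FOU → T_COV → T_SCH → T_LVE → T_LVB → T_LVQ` -/
def T_LVQ : Prop := ∀ (p R N E h t₀ τ t₁ : ℕ) [Fact p.Prime]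
  (A : Fin (R + R) → Fin N → ZMod p) (b : Fin (R + R) → ZMod p) (i : Fin R) (γ : ℝ), 2 < p →
  1 ≤ E → NoStar A E h t₀ t₁ → 2 * (τ + 2) ≤ t₁ → 2 ≤ τ → 0 ≤ γ →
  (p : ℝ) ^ 10 ≤ γ ^ 4 * (p : ℝ) ^ (τ - 2) →
  ∀ B : Finset (Fin N → ZMod p), (∀ z, z ∈ B ↔ Bad A b i z) →
  ∀ f : (Fin N → ZMod p) → ℝ, Low h f →
    |∑ z ∈ B, D0 A τ b z * f z ^ 2| ≤
      2 * E * (CC p (R + R) t₀).card * γ * ∑ z, f z ^ 2

open Classical in
/-- `Good`, and `D * [bad i]` is at most `θ` on squares of functions of degree at most `h` -/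
def Good2 (p N R k h : ℕ) [NeZero p] (g θ : ℝ) : Prop :=
  ∃ (T : Fin R → Finset (Fin N)) (bad : Fin R → (Fin N → ZMod p) → Prop)
    (D : (Fin N → ZMod p) → ℝ), (∀ i, (T i).card = k) ∧
    (∀ i z z', (∀ j ∈ T i, z j = z' j) → (bad i z ↔ bad i z')) ∧
    (∀ z, g * R ≤ ((univ.filter (fun i => bad i z)).card : ℝ)) ∧
    (∀ z, |D z| ≤ (p : ℝ) ^ N) ∧ PosDeg h D ∧ av D = 1 ∧
    (∀ i, 0 ≤ av (fun z => if bad i z then D z else 0) ∧
      av (fun z => if bad i z then D z else 0) ≤ θ) ∧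
    ∀ i, PosDeg h (fun z => θ - if bad i z then D z else 0)

/-- GO2: `T_CNT → T_DZP → T_KFB → T_POS → T_SYQ → T_LVQ → T_GO2`; as GOO with `τ = 120 E u` -/
def T_GO2 : Prop := ∀ E : ℕ, 2 ≤ E → ∃ (K w ρ k p : ℕ) (_ : Fact p.Prime), E ≤ K ∧ 1 ≤ w ∧
  1 ≤ ρ ∧ 1 ≤ k ∧ 2 ^ K < p ∧ p ≤ 2 ^ (K + 1) ∧ ∀ u : ℕ, k ≤ u →
    Good2 p (w * u) (ρ * u) k (w * u - w * u / E) (1 - 1 / (E : ℝ)) (((4 : ℝ) ^ (w * u))⁻¹)

end Pool.Agent.H76.QE
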