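import Pool.Agent.H64.QD.CNT
import Pool.Agent.H64.QD.CFQ
import Pool.Agent.H64.QD.FOU
import Pool.Agent.H73.QD.CONN
import Pool.Agent.H73.QD.PTH
import Pool.Agent.H70.QD.COV
import Pool.Agent.H83.QD.CPX
import Pool.Agent.H83.QD.INE
import Pool.Agent.H83.QD.STR
import Pool.Agent.H21.QD.DZP
import Pool.Agent.H21.QD.KFB
import Pool.Agent.H32.QD.MEA
import Pool.Agent.H60.QD.KEX
import Pool.Agent.H60.QD.LOC
import Pool.Agent.H67.QD.GSU
import Pool.Agent.H67.QD.PSV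
import Pool.Agent.H67.QD.SCH
import Pool.Agent.H93.QD.POS
import Pool.Agent.H25.QD.FAQ
import Pool.Agent.H25.QD.SYQ
import Pool.Agent.H39.QD.GOO

/-!
# Quadratic equations over `ZMod p`: assembly of the density part (helper76)
-/

set_option autoImplicit false

namespace Pool.Agent.H76.QE

open Pool.Agent.H1.LP (S_DISP S_COL S_SMALL)

theorem dzp : T_DZP :=
  H21.QD.pf_DZP H64.QD.pf_CNT (H32.QD.pf_MEA H83.QD.pf_CPX) (H60.QD.pf_LOC H83.QD.pf_CPX)

theorem kfb : T_KFB := H21.QD.pf_KFB H67.QD.pf_GSU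

theorem pos : T_POS :=
  H93.QD.pf_POS (H60.QD.pf_KEX H83.QD.pf_CPX) H67.QD.pf_PSV H64.QD.pf_FOU H73.QD.pf_PTH
    H73.QD.pf_CON H70.QD.pf_COV H67.QD.pf_SCH

end Pool.Agent.H76.QE
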