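import Pool.Agent.H73.OX.LAS
import Pool.Agent.H43.PS.Targets2
import Pool.Agent.H1.LP.Targets
import Pool.Agent.H96.KX.Targets

/-!
# Quadratic equations over `ZMod p` and pseudo-densities of degree `(1 - 1/E) N` (helper76)

Definitions of the board `qe_modules` (MP_c62aed_lc, MP_0f8dca_lc).  `A : Fin M → Fin N → ZMod p` is a
system of `M` linear forms, `C : Fin M → ZMod p` a coefficient vector, `comb A C` the combination,
`supp C` the support.  For quadratic equations `M = R + R`, the two forms of the equation `i : Fin R`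
are `A (Fin.castAdd R i)` and `A (Fin.natAdd R i)`.
-/

set_option autoImplicit false

namespace Pool.Agent.H76.QE

open Finset
open Pool.Agent.H1.LP (supp ip comb)
open H43.PS (PosDeg Low av)

/-- the set of the zero coordinates -/
def zer {p N : ℕ} (v : Fin N → ZMod p) : Finset (Fin N) := univ.filter (fun j => v j = 0)

/-- the combinations with more than `t₀` and at most `t₁` forms have fewer than `z₀` zeros -/
def Wide {p M N : ℕ} (A : Fin M → Fin N → ZMod p) (t₀ t₁ z₀ : ℕ) : Prop :=
  ∀ C : Fin M → ZMod p, t₀ < (supp C).card → (supp C).card ≤ t₁ → (zer (comb A C)).card < z₀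

/-- there is no nontrivial dependency of at most `t₁` forms -/
def Indp {p M N : ℕ} (A : Fin M → Fin N → ZMod p) (t₁ : ℕ) : Prop :=
  ∀ C : Fin M → ZMod p, (supp C).card ≤ t₁ → comb A C = 0 → C = 0

/-- there are no `2 E` vectors `v + comb A (C i)` with at most `h` nonzero coordinates and with
differences `C i - C j` of weight in `(t₀, t₁]` -/
def NoStar {p M N : ℕ} (A : Fin M → Fin N → ZMod p) (E h t₀ t₁ : ℕ) : Prop :=
  ∀ (v : Fin N → ZMod p) (C : Fin (2 * E) → Fin M → ZMod p),
    (∀ i, (supp (v + comb A (C i))).card ≤ h) →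
    (∀ i j, i ≠ j → t₀ < (supp (C i - C j)).card ∧ (supp (C i - C j)).card ≤ t₁) → False

/-- a path from `v` to `v + comb A C` inside the vectors with at most `h` nonzero coordinates, with
steps of weight at most `s` -/
def Pth {p M N : ℕ} (A : Fin M → Fin N → ZMod p) (s h : ℕ) (v : Fin N → ZMod p)
    (C : Fin M → ZMod p) : Prop :=
  ∃ (n : ℕ) (S : ℕ → Fin M → ZMod p), S 0 = 0 ∧ S n = C ∧
    (∀ j, j < n → (supp (S (j + 1) - S j)).card ≤ s) ∧
    ∀ j, j ≤ n → (supp (v + comb A (S j))).card ≤ h

/-- the vectors with at most `h` nonzero coordinates -/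
def BB (p N h : ℕ) [NeZero p] : Finset (Fin N → ZMod p) :=
  univ.filter (fun v => (supp v).card ≤ h)

/-- the coefficient vectors of weight at most `t` -/
def CC (p M t : ℕ) [NeZero p] : Finset (Fin M → ZMod p) :=
  univ.filter (fun C => (supp C).card ≤ t)

/-- the linear pseudo-density with the right side `c`, truncated at `τ` forms -/
noncomputable def LD {p M N : ℕ} [NeZero p] (A : Fin M → Fin N → ZMod p) (τ : ℕ)
    (c : Fin M → ZMod p) (z : Fin N → ZMod p) : ℝ :=
  ∑ C ∈ CC p M τ, (ZMod.stdAddChar (ip (comb A C) z - ip C c)).re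

/-- the right side `b + (x, x ^ 2)` -/
def sh {p R : ℕ} (b : Fin (R + R) → ZMod p) (x : Fin R → ZMod p) : Fin (R + R) → ZMod p :=
  Fin.addCases (fun i => b (Fin.castAdd R i) + x i) (fun i => b (Fin.natAdd R i) + x i ^ 2)

/-- the pseudo-density of the quadratic system, without the correction -/
noncomputable def D0 {p R N : ℕ} [NeZero p] (A : Fin (R + R) → Fin N → ZMod p) (τ : ℕ)
    (b : Fin (R + R) → ZMod p) (z : Fin N → ZMod p) : ℝ :=
  av (fun x : Fin R → ZMod p => LD A τ (sh b x) z)

/-- the mean character of the right sides -/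
noncomputable def KF {p R : ℕ} [NeZero p] (b : Fin (R + R) → ZMod p) (C : Fin (R + R) → ZMod p) :
    ℂ :=
  ((p : ℂ) ^ R)⁻¹ * ∑ x : Fin R → ZMod p, ZMod.stdAddChar (-ip C (sh b x))

/-- the point `z` violates the quadratic equation `i` -/
def Bad {p R N : ℕ} (A : Fin (R + R) → Fin N → ZMod p) (b : Fin (R + R) → ZMod p) (i : Fin R)
    (z : Fin N → ZMod p) : Prop :=
  ip (A (Fin.natAdd R i)) z - b (Fin.natAdd R i) ≠
    (ip (A (Fin.castAdd R i)) z - b (Fin.castAdd R i)) ^ 2

open Classical in
/-- There are `R` constraints on `N` letters in `ZMod p`, the constraint `i` depends on the `k`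
letters in `T i`, every point violates at least `g R` constraints, and there is a density of mean
one, nonnegative on squares of functions of degree at most `h`, which gives mass at most `θ` to the
violation of each constraint. -/
def Good (p N R k h : ℕ) [NeZero p] (g θ : ℝ) : Prop :=
  ∃ (T : Fin R → Finset (Fin N)) (bad : Fin R → (Fin N → ZMod p) → Prop)
    (D : (Fin N → ZMod p) → ℝ), (∀ i, (T i).card = k) ∧
    (∀ i z z', (∀ j ∈ T i, z j = z' j) → (bad i z ↔ bad i z')) ∧
    (∀ z, g * R ≤ ((univ.filter (fun i => bad i z)).card : ℝ)) ∧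
    (∀ z, |D z| ≤ (p : ℝ) ^ N) ∧ PosDeg h D ∧ av D = 1 ∧
    ∀ i, 0 ≤ av (fun z => if bad i z then D z else 0) ∧
      av (fun z => if bad i z then D z else 0) ≤ θ

end Pool.Agent.H76.QE
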