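import Pool.Agent.H76.QE.Defs

/-!
# Quadratic equations over `ZMod p`: targets of the board `qe_modules`, density part (helper76)

Page: /team-store/H76_SDP1.md.
-/

set_option autoImplicit false

namespace Pool.Agent.H76.QE

open Finset
open Pool.Agent.H1.LP (supp ip comb kk S_DISP S_COL S_SMALL)
open H43.PS (PosDeg Low av)
open Pool.Agent.H73.OX (ch)

/-! ## characters -/

/-- CNT: number of coefficient vectors of weight at most `t` -/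
def T_CNT : Prop := ∀ (p M t : ℕ) [Fact p.Prime], (CC p M t).card ≤ 2 ^ M * p ^ t

/-- CPX: the linear density as a complex sum -/
def T_CPX : Prop := ∀ (p M N τ : ℕ) [Fact p.Prime] (A : Fin M → Fin N → ZMod p)
  (c : Fin M → ZMod p) (z : Fin N → ZMod p),
  ((LD A τ c z : ℝ) : ℂ) = ∑ C ∈ CC p M τ, (ZMod.stdAddChar (ip (comb A C) z - ip C c) : ℂ)

/-- MEA: `T_CPX → T_MEA`; mean of the linear density -/
def T_MEA : Prop := ∀ (p M N τ : ℕ) [Fact p.Prime] (A : Fin M → Fin N → ZMod p)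
  (c : Fin M → ZMod p), Indp A τ → av (LD A τ c) = 1

/-- LOC: `T_CPX → T_LOC`; the values of two forms under the linear density -/
def T_LOC : Prop := ∀ (p M N τ t₁ : ℕ) [Fact p.Prime] (A : Fin M → Fin N → ZMod p)
  (c : Fin M → ZMod p) (i j : Fin M), i ≠ j → Indp A t₁ → 2 ≤ τ → τ + 2 ≤ t₁ →
  ∀ F : ZMod p → ZMod p → ℝ,
    av (fun z => LD A τ c z * F (ip (A i) z) (ip (A j) z)) = F (c i) (c j)

/-- DZP: `T_CNT → T_MEA → T_LOC → T_DZP`; the density of the quadratic system -/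
def T_DZP : Prop := ∀ (p R N τ t₁ : ℕ) [Fact p.Prime] (A : Fin (R + R) → Fin N → ZMod p)
  (b : Fin (R + R) → ZMod p), Indp A t₁ → 2 ≤ τ → τ + 2 ≤ t₁ →
  (∀ z, |D0 A τ b z| ≤ 2 ^ (R + R) * (p : ℝ) ^ τ) ∧ av (D0 A τ b) = 1 ∧
  ∀ (i : Fin R) (B : Finset (Fin N → ZMod p)), (∀ z, z ∈ B ↔ Bad A b i z) →
    ∑ z ∈ B, D0 A τ b z = 0

/-- GSU: quadratic Gauss sums -/
def T_GSU : Prop := ∀ (p : ℕ) [Fact p.Prime], 2 < p → ∀ a b : ZMod p, (a ≠ 0 ∨ b ≠ 0) →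
  ‖∑ x : ZMod p, (ZMod.stdAddChar (a * x + b * x ^ 2) : ℂ)‖ ^ 2 ≤ p

/-- KFB: `T_GSU → T_KFB`; decay of the mean character -/
def T_KFB : Prop := ∀ (p R : ℕ) [Fact p.Prime], 2 < p → ∀ (b C : Fin (R + R) → ZMod p),
  ‖KF b C‖ ^ 4 * (p : ℝ) ^ (supp C).card ≤ 1

/-- KEX: `T_CPX → T_KEX`; the quadratic form of the density on characters -/
def T_KEX : Prop := ∀ (p R N τ : ℕ) [Fact p.Prime] (A : Fin (R + R) → Fin N → ZMod p)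
  (b : Fin (R + R) → ZMod p) (V : Finset (Fin N → ZMod p)) (a : (Fin N → ZMod p) → ℂ)
  (f : (Fin N → ZMod p) → ℝ), (∀ z, ((f z : ℝ) : ℂ) = ∑ l ∈ V, a l * ch l z) →
  ∑ z, D0 A τ b z * f z ^ 2 =
    (p : ℝ) ^ N * (∑ x ∈ V, ∑ y ∈ V, a x * (starRingEnd ℂ) (a y) *
      ∑ C ∈ (CC p (R + R) τ).filter (fun C => comb A C = y - x), KF b C).re

/-- PSV: Parseval -/
def T_PSV : Prop := ∀ (p N : ℕ) [Fact p.Prime] (V : Finset (Fin N → ZMod p))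
  (a : (Fin N → ZMod p) → ℂ) (f : (Fin N → ZMod p) → ℝ),
  (∀ z, ((f z : ℝ) : ℂ) = ∑ l ∈ V, a l * ch l z) →
  ∑ z, f z ^ 2 = (p : ℝ) ^ N * ∑ x ∈ V, ‖a x‖ ^ 2

/-- FOU: functions of degree at most `h` are combinations of characters of weight at most `h` -/
def T_FOU : Prop := ∀ (p N h : ℕ) [Fact p.Prime] (f : (Fin N → ZMod p) → ℝ), Low h f →
  ∃ a : (Fin N → ZMod p) → ℂ, ∀ z, ((f z : ℝ) : ℂ) = ∑ l ∈ BB p N h, a l * ch l z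

/-! ## combinatorics -/

/-- INE: inclusion and exclusion -/
def T_INE : Prop := ∀ (N E z₀ : ℕ) (Z : Fin (2 * E) → Finset (Fin N)), 1 ≤ E →
  4 * E ^ 2 * z₀ ≤ N → (∀ i, N ≤ E * (Z i).card) → ∃ i j, i ≠ j ∧ z₀ ≤ (Z i ∩ Z j).card

/-- STR: `T_INE → T_STR` -/
def T_STR : Prop := ∀ (p M N E h t₀ t₁ z₀ : ℕ) [Fact p.Prime] (A : Fin M → Fin N → ZMod p),
  Wide A t₀ t₁ z₀ → 1 ≤ E → 4 * E ^ 2 * z₀ ≤ N → N ≤ E * (N - h) → NoStar A E h t₀ t₁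

/-- PTH: paths stay short -/
def T_PTH : Prop := ∀ (p M N E h t₀ t₁ s : ℕ) [Fact p.Prime] (A : Fin M → Fin N → ZMod p),
  NoStar A E h t₀ t₁ → 1 ≤ E → t₀ < s → 8 * E * s ≤ t₁ →
  ∀ (v : Fin N → ZMod p) (C : Fin M → ZMod p), Pth A s h v C → (supp C).card < 4 * E * s

/-- CON: the components and their cocycle -/
def T_CON : Prop := ∀ (p M N h s r t₁ : ℕ) [Fact p.Prime] (A : Fin M → Fin N → ZMod p),
  Indp A t₁ → 3 * r ≤ t₁ →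
  (∀ (v : Fin N → ZMod p) (C : Fin M → ZMod p), Pth A s h v C → (supp C).card < r) →
  ∃ (rel : (Fin N → ZMod p) → (Fin N → ZMod p) → Prop)
    (κ : (Fin N → ZMod p) → (Fin N → ZMod p) → Fin M → ZMod p),
    (∀ x ∈ BB p N h, rel x x) ∧
    (∀ x ∈ BB p N h, ∀ y ∈ BB p N h, rel x y → rel y x) ∧
    (∀ x ∈ BB p N h, ∀ y ∈ BB p N h, ∀ z ∈ BB p N h, rel x y → rel y z → rel x z) ∧
    (∀ x ∈ BB p N h, ∀ y ∈ BB p N h, rel x y →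
      comb A (κ x y) = y - x ∧ (supp (κ x y)).card < r) ∧
    (∀ x ∈ BB p N h, ∀ y ∈ BB p N h, ∀ z ∈ BB p N h, rel x z → rel y z →
      κ x y = κ x z - κ y z) ∧
    ∀ x ∈ BB p N h, ∀ y ∈ BB p N h, ¬ rel x y → ∀ C : Fin M → ZMod p, comb A C = y - x →
      s < (supp C).card

/-- COV: few combinations lead to vectors with many zeros -/
def T_COV : Prop := ∀ (p M N E h t₀ t₁ τ : ℕ) [Fact p.Prime] (A : Fin M → Fin N → ZMod p),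
  NoStar A E h t₀ t₁ → 1 ≤ E → 2 * τ ≤ t₁ → ∀ v : Fin N → ZMod p,
  ((CC p M τ).filter (fun C => (supp (v + comb A C)).card ≤ h)).card ≤
    2 * E * (CC p M t₀).card

/-- SCH: Schur test -/
def T_SCH : Prop := ∀ (ι : Type) (V : Finset ι) (k : ι → ι → ℂ) (β : ℝ),
  (∀ x ∈ V, ∑ y ∈ V, ‖k x y‖ ≤ β) → (∀ y ∈ V, ∑ x ∈ V, ‖k x y‖ ≤ β) → ∀ a : ι → ℂ,
  -(β * ∑ x ∈ V, ‖a x‖ ^ 2) ≤ (∑ x ∈ V, ∑ y ∈ V, a x * (starRingEnd ℂ) (a y) * k x y).re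

/-- POS: `T_KEX → T_PSV → T_FOU → T_PTH → T_CON → T_COV → T_SCH → T_POS`; positivity -/
def T_POS : Prop := ∀ (p R N E h t₀ s τ t₁ : ℕ) [Fact p.Prime]
  (A : Fin (R + R) → Fin N → ZMod p) (b : Fin (R + R) → ZMod p) (β : ℝ), 1 ≤ E → 0 ≤ β →
  Indp A t₁ → NoStar A E h t₀ t₁ → t₀ < s → 12 * E * s ≤ t₁ → 4 * E * s ≤ τ → 2 * τ ≤ t₁ →
  (∀ C : Fin (R + R) → ZMod p, s < (supp C).card →
    ‖KF b C‖ * (2 * E * (CC p (R + R) t₀).card) ≤ β) →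
  PosDeg h (fun z => D0 A τ b z + β)

/-! ## the system -/

/-- CFQ: `S_DISP → S_COL → T_CNT → T_CFQ`; a wide system, `w = 4096 E ^ 3` -/
def T_CFQ : Prop := ∀ (E w u p : ℕ) [Fact p.Prime], 1 ≤ E → w = 4096 * E ^ 3 →
  kk w ≤ w * u → 2 ^ (5 * w ^ 2) < p →
  ∃ (T : Fin (4 * w * (w * u)) → Finset (Fin (w * u)))
    (A : Fin (4 * w * (w * u)) → Fin (w * u) → ZMod p),
    (∀ i, (T i).card = kk w) ∧ (∀ i, supp (A i) ⊆ T i) ∧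
    Wide A u (256 * E * u) (1024 * E * u)

/-- DEL: `S_SMALL → T_DEL`; selection of independent pairs of forms -/
def T_DEL : Prop := ∀ (p M₀ N k R t₀ t₁ z₀ : ℕ) [Fact p.Prime]
  (T₀ : Fin M₀ → Finset (Fin N)) (A₀ : Fin M₀ → Fin N → ZMod p),
  (∀ i, (T₀ i).card = k) → (∀ i, supp (A₀ i) ⊆ T₀ i) → Wide A₀ t₀ t₁ z₀ → z₀ ≤ N →
  2 * t₀ ≤ t₁ → 2 * k ≤ N → R + R + 2 * t₀ ≤ M₀ →
  ∃ (T : Fin R → Finset (Fin N)) (A : Fin (R + R) → Fin N → ZMod p),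
    (∀ i, (T i).card = 2 * k) ∧
    (∀ i, supp (A (Fin.castAdd R i)) ⊆ T i ∧ supp (A (Fin.natAdd R i)) ⊆ T i) ∧
    Wide A t₀ t₁ z₀ ∧ Indp A t₁

/-- FAQ: a right side with few satisfied equations -/
def T_FAQ : Prop := ∀ (p R N : ℕ) [Fact p.Prime] (A : Fin (R + R) → Fin N → ZMod p),
  2 ^ R < p ^ (2 * N) → ∃ b : Fin (R + R) → ZMod p, ∀ (z : Fin N → ZMod p)
    (B : Finset (Fin R)), (∀ i, i ∈ B ↔ Bad A b i z) → R ≤ B.card + 3 * N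

/-- SYQ: `T_CFQ → T_DEL → T_FAQ → T_STR → T_SYQ`; the system with all its properties -/
def T_SYQ : Prop := ∀ (E w u p : ℕ) [Fact p.Prime], 1 ≤ E → w = 4096 * E ^ 3 →
  2 * kk w ≤ u → 2 ^ (5 * w ^ 2) < p →
  ∃ (T : Fin (w * (w * u)) → Finset (Fin (w * u)))
    (A : Fin (w * (w * u) + w * (w * u)) → Fin (w * u) → ZMod p)
    (b : Fin (w * (w * u) + w * (w * u)) → ZMod p),
    (∀ i, (T i).card = 2 * kk w) ∧
    (∀ i z z', (∀ j ∈ T i, z j = z' j) → (Bad A b i z ↔ Bad A b i z')) ∧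
    (∀ (z : Fin (w * u) → ZMod p) (B : Finset (Fin (w * (w * u)))),
      (∀ i, i ∈ B ↔ Bad A b i z) → w * (w * u) ≤ B.card + 3 * (w * u)) ∧
    Indp A (256 * E * u) ∧
    NoStar A E (w * u - w * u / E) u (256 * E * u)

/-- GOO: `T_CNT → T_DZP → T_KFB → T_POS → T_SYQ → T_GOO`; the main theorem of this part -/
def T_GOO : Prop := ∀ E : ℕ, 2 ≤ E → ∃ (K w ρ k p : ℕ) (_ : Fact p.Prime), E ≤ K ∧ 1 ≤ w ∧
  1 ≤ ρ ∧ 1 ≤ k ∧ 2 ^ K < p ∧ p ≤ 2 ^ (K + 1) ∧ ∀ u : ℕ, k ≤ u →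
    Good p (w * u) (ρ * u) k (w * u - w * u / E) (1 - 1 / (E : ℝ)) (((4 : ℝ) ^ (w * u))⁻¹)

end Pool.Agent.H76.QE
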