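import Pool.Agent.H76.QE.Targets
import Pool.Agent.H55.QR.Targets

/-!
# Quadratic equations over `ZMod p`: targets of the board `qd_modules`, common rows of the last
layers (helper76)
-/

set_option autoImplicit false

namespace Pool.Agent.H76.QE

open Finset
open Pool.Agent.H1.LP (Clause viol Agree supp ip comb kk)
open Pool.Agent.H96.KX (prs)
open H43.PS (PosDeg Low av T_PSL)
open Pool.Agent.H55.QR (PSB PSB3)

open Classical in
/-- FRQ: the formula of a table for general constraints `bad i` on the blocks in `T i`; copy of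
`S_FRM` -/
def T_FRQ : Prop :=
  ∀ (p B R b n : ℕ) [Fact p.Prime] (T : Fin R → Finset (Fin B))
    (bad : Fin R → (Fin B → ZMod p) → Prop)
    (al : Fin B → (Fin b → Bool) → ZMod p)
    (dec : (Fin n → Bool) → (Fin B → Fin b → Bool))
    (cl : Finset (Fin B) → (Fin B → Fin b → Bool) → Clause n),
    (∀ i z z', (∀ j ∈ T i, z j = z' j) → (bad i z ↔ bad i z')) →
    (∀ T v y, (cl T v).Sat y ↔ ¬ Agree T (dec y) v) →
    ∃ (m : ℕ) (phi : Fin m → Clause n), m ≤ (prs (b := b) T).card ∧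
      (∀ c, ∃ q ∈ prs (b := b) T, phi c = cl (T q.1) q.2) ∧
      (∀ g : Clause n → ℝ, ∑ c, g (phi c) =
        ∑ q ∈ (prs (b := b) T).filter (fun q => bad q.1 (H1.LP.val al q.2)),
          g (cl (T q.1) q.2)) ∧
      ∀ y, viol phi y = (univ.filter (fun i => bad i (H1.LP.val al (dec y)))).card

/-- EXQ: `T_PSL → T_EXQ`, exponent `1` in the order, adaptive; copy of `S_EXPA` -/
def T_EXQ : Prop := ∀ (Θ : Type) [Fintype Θ] [DecidableEq Θ] [AddCommGroup Θ] (e C : ℝ),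
  0 < e → e < 1 / 2 → 0 ≤ C → 1 < Fintype.card Θ → ∃ q₀ : ℕ, ∀ q : ℕ, q₀ ≤ q → ∀ (N h : ℕ),
  (1 - e / 2) * N ≤ h + 1 →
  PSB Θ N q h ((((Fintype.card Θ : ℝ) * q) ^ N) ^ (1 - e)) (((2 : ℝ) ^ N)⁻¹)
    ((((Fintype.card Θ : ℝ) * q) ^ N) ^ (-C))

/-- VMN: the mean of the number of violated constraints under the density of `Good`, and of the
corrected function -/
def T_VMN : Prop := ∀ (p N R : ℕ) [Fact p.Prime] (bad : Fin R → (Fin N → ZMod p) → Prop)
  (D : (Fin N → ZMod p) → ℝ) (θ : ℝ) (V : (Fin N → ZMod p) → ℝ), av D = 1 →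
  (∀ z (B : Finset (Fin R)), (∀ i, i ∈ B ↔ bad i z) → V z = B.card) →
  (∀ (i : Fin R) (B : Finset (Fin N → ZMod p)), (∀ z, z ∈ B ↔ bad i z) →
    0 ≤ ∑ z ∈ B, D z ∧ ∑ z ∈ B, D z ≤ θ * (p : ℝ) ^ N) →
  0 ≤ av (fun z => D z * V z) ∧ av (fun z => D z * V z) ≤ θ * R ∧
  av (fun z => D z * (V z - av (fun z => D z * V z))) = 0

end Pool.Agent.H76.QE
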